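import Mathlib

set_option autoImplicit false

namespace Pool.Agent.Results.MP_d968d9_gt.NoethBaseT1

open Set Filter Topology TopologicalSpace

universe u

/-- `Γ` has rank `≤ n` at `x` -/
def RankLE {X : Type u} (Γ : Set (Set X)) (x : X) (n : ℕ) : Prop :=
  ∀ Γ' ⊆ Γ, (∀ B ∈ Γ', x ∈ B) → IsAntichain (· ⊆ ·) Γ' → Γ'.encard ≤ n

def PointFiniteRank {X : Type u} (Γ : Set (Set X)) : Prop := ∀ x, ∃ n : ℕ, RankLE Γ x n

def SubinfiniteRank {X : Type u} (Γ : Set (Set X)) : Prop :=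
  ∀ Γ' ⊆ Γ, IsAntichain (· ⊆ ·) Γ' → (⋂₀ Γ').Nonempty → Γ'.Finite

/-- no infinite strictly increasing sequence -/
def Noetherian {X : Type u} (Γ : Set (Set X)) : Prop :=
  ¬ ∃ G : ℕ → Set X, (∀ n, G n ∈ Γ) ∧ ∀ n, G n ⊂ G (n + 1)

lemma anti {X : Type u} {Γ : Set (Set X)} {p : X} {n : ℕ} (h : RankLE Γ p n) (u : Ultrafilter ℕ)
    (T : ℕ → ℕ → Set X) (h1 : ∀ a ≤ n, ∀ᶠ j in u, T a j ∈ Γ ∧ p ∈ T a j)
    (h2 : ∀ a b, a < b → b ≤ n → ∀ᶠ i in u, ∀ᶠ j in u, ¬ T a i ⊆ T b j ∧ ¬ T b j ⊆ T a i) :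
    False := by
  have h3 : ∀ m ≤ n + 1, ∃ Δ ⊆ Γ, Δ.Finite ∧ (∀ B ∈ Δ, p ∈ B) ∧ IsAntichain (· ⊆ ·) Δ ∧
      Δ.encard = m ∧ ∀ B ∈ Δ, ∀ b, m ≤ b → b ≤ n → ∀ᶠ j in u, ¬ B ⊆ T b j ∧ ¬ T b j ⊆ B := by
    intro m
    induction m with
    | zero => exact fun _ => ⟨∅, empty_subset _, finite_empty, by simp, IsAntichain.empty, by simp,
        by simp⟩
    | succ m ih =>
      intro hm
      have hm' := Nat.le_of_succ_le_succ hm
      obtain ⟨Δ, h3, h4, h5, h6, h7, h8⟩ := ih (hm'.trans n.le_succ)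
      obtain ⟨i, ⟨h9, h10⟩, h11, h12⟩ := ((h1 m hm').and
        (((eventually_all_finite h4).2 fun B hB => h8 B hB m le_rfl hm').and
          ((eventually_all_finite (finite_Ioc m n)).2 fun b hb => h2 m b hb.1 hb.2))).exists
      refine ⟨insert (T m i) Δ, insert_subset h9 h3, h4.insert _,
        forall_mem_insert.2 ⟨h10, h5⟩, h6.insert (fun B hB _ => (h11 B hB).1)
          fun B hB _ => (h11 B hB).2, ?_, forall_mem_insert.2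
        ⟨fun b hb hb' => h12 b ⟨hb, hb'⟩, fun B hB b hb => h8 B hB b (m.le_succ.trans hb)⟩⟩
      rw [encard_insert_of_notMem fun h => (h11 _ h).1 subset_rfl, h7]
      rfl
  obtain ⟨Δ, h3, -, h5, h6, h7, -⟩ := h3 _ le_rfl
  have h8 := h Δ h3 h5 h6
  rw [h7] at h8
  exact absurd (by exact_mod_cast h8 : n + 1 ≤ n) (by omega)

lemma chain {X : Type u} {Γ : Set (Set X)} {p : X} {n : ℕ} (h : RankLE Γ p n) (u : Ultrafilter ℕ)
    (T : ℕ → Set X) (h1 : ∀ᶠ j in u, T j ∈ Γ ∧ p ∈ T j)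
    (h2 : ∀ᶠ i in u, ∀ᶠ j in u, ¬ T j ⊆ T i) : ∀ᶠ i in u, ∀ᶠ j in u, T i ⊆ T j := by
  by_contra h3
  refine anti h u (fun _ => T) (fun _ _ => h1) fun _ _ _ _ => ?_
  filter_upwards [Ultrafilter.eventually_not.2 h3, h2] with i h4 h5
  exact (Ultrafilter.eventually_not.2 h4).and h5

lemma closed_base {X : Type u} [TopologicalSpace X] {Γ : Set (Set X)} (hΓ : IsTopologicalBasis Γ)
    (hr : PointFiniteRank Γ) : ∃ Γ' : Set (Set X), IsTopologicalBasis Γ' ∧ PointFiniteRank Γ' ∧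
      ∀ c ⊆ Γ', IsChain (· ⊆ ·) c → c.Nonempty → ⋃₀ c ∈ Γ' := by
  classical
  refine ⟨{W | ∀ F ⊆ W, F.Finite → F.Nonempty → ∃ B ∈ Γ, F ⊆ B ∧ B ⊆ W},
    isTopologicalBasis_of_isOpen_of_nhds (fun W hW => hΓ.isOpen_iff.2 fun x hx => ?_)
      fun x U hx hU => ?_, fun x => ?_, fun c h1 h2 h3 F h4 h5 h6 => ?_⟩
  · obtain ⟨B, h1, h2, h3⟩ := hW {x} (singleton_subset_iff.2 hx) (finite_singleton x)
      (singleton_nonempty x)
    exact ⟨B, h1, h2 rfl, h3⟩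
  · obtain ⟨B, h1, h2, h3⟩ := hΓ.exists_subset_of_mem_open hx hU
    exact ⟨B, fun F h4 _ _ => ⟨B, h1, h4, subset_rfl⟩, h2, h3⟩
  · obtain ⟨n, hn⟩ := hr x
    refine ⟨n, fun Δ h1 h2 h3 => by_contra fun h => ?_⟩
    obtain ⟨Δ', h4, h5⟩ := exists_subset_encard_eq (k := n + 1) (Order.add_one_le_of_lt
      (not_le.1 h))
    have h6 : Δ'.Finite := finite_of_encard_eq_coe (k := n + 1) h5
    have h7 : ∀ W V : Set X, ∃ a, W ∈ Δ → V ∈ Δ → a ∈ W ∧ (W ≠ V → a ∉ V) := by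
      intro W V
      by_cases h7 : W ∈ Δ ∧ V ∈ Δ ∧ W ≠ V
      · obtain ⟨a, h8, h9⟩ := not_subset.1 (h3 h7.1 h7.2.1 h7.2.2)
        exact ⟨a, fun _ _ => ⟨h8, fun _ => h9⟩⟩
      · exact ⟨x, fun h8 h9 => ⟨h2 W h8, fun h10 => absurd ⟨h8, h9, h10⟩ h7⟩⟩
    choose a ha using h7
    choose! B h7 h8 h9 using fun W (hW : W ∈ Δ') => h1 (h4 hW) (insert x (a W '' Δ'))
      (insert_subset (h2 W (h4 hW)) (image_subset_iff.2 fun V hV => (ha W V (h4 hW) (h4 hV)).1))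
      ((h6.image _).insert x) (insert_nonempty _ _)
    have h10 : ∀ W ∈ Δ', ∀ V ∈ Δ', W ≠ V → ¬ B W ⊆ B V := fun W hW V hV h10 h11 =>
      (ha W V (h4 hW) (h4 hV)).2 h10 (h9 V hV (h11 (h8 W hW (Or.inr ⟨V, hV, rfl⟩))))
    have h11 := hn (B '' Δ') (image_subset_iff.2 h7)
      (forall_mem_image.2 fun W hW => h8 W hW (Or.inl rfl))
      (by rintro _ ⟨W, hW, rfl⟩ _ ⟨V, hV, rfl⟩ h11; exact h10 W hW V hV fun h => h11 (h ▸ rfl))
    rw [InjOn.encard_image fun W hW V hV h => by_contra fun h12 => h10 W hW V hV h12 h.subset,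
      h5] at h11
    exact absurd (by exact_mod_cast h11 : n + 1 ≤ n) (by omega)
  · obtain ⟨W, h7, h8⟩ : ∃ W ∈ c, F ⊆ W := by
      have := h3.to_subtype
      obtain ⟨W, hW⟩ := directedOn_iff_directed.1 h2.directedOn |>.exists_mem_subset_of_finset_subset_biUnion
        (s := h5.toFinset) (by rwa [h5.coe_toFinset, ← sUnion_eq_iUnion])
      exact ⟨W, W.2, by rwa [h5.coe_toFinset] at hW⟩
    obtain ⟨B, h9, h10, h11⟩ := h1 h7 F h8 h5 h6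
    exact ⟨B, h9, h10, h11.trans (subset_sUnion_of_mem h7)⟩

lemma main {X : Type u} [TopologicalSpace X] [T1Space X] {Γ : Set (Set X)}
    (hΓ : IsTopologicalBasis Γ) (hr : PointFiniteRank Γ)
    (hc : ∀ c ⊆ Γ, IsChain (· ⊆ ·) c → c.Nonempty → ⋃₀ c ∈ Γ) :
    ∃ Γ' ⊆ Γ, IsTopologicalBasis Γ' ∧ Noetherian Γ' := by
  choose n hn using hr
  obtain ⟨_, _⟩ := exists_wellFoundedLT X
  let r : Set X ↪ Cardinal.{u} := embeddingToCardinal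
  have hmin : ∀ {B : Set X} {x : X}, x ∈ B → ∃ q, IsLeast B q := fun {B x} hx =>
    let ⟨q, h1, h2⟩ := wellFounded_lt.has_min B ⟨x, hx⟩; ⟨q, h1, fun y hy => not_lt.1 (h2 y hy)⟩
  let A : Set (Set X) := {N | ∀ N' ∈ Γ, N' ⊆ N → (∀ q, IsLeast N q → q ∈ N') → ¬ r N' < r N}
  let G : Set (Set X) := {N | ∃ p ∈ N, ∃ B : ℕ → Set X, (∀ t, B t ∈ Γ) ∧ Antitone B ∧
    (∀ t q, IsLeast (B t) q → q ∉ B (t + 1)) ∧ N ⊆ B (n p) ∧
      ∀ S ∈ Γ, S ⊆ B 0 → N ⊆ S → (∀ q, IsLeast N q → IsLeast S q) → S ⊆ N}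
  refine ⟨{N | N ∈ Γ ∧ N.Nonempty ∧ (N ∈ A ∨ N ∈ G)}, fun N hN => hN.1,
    isTopologicalBasis_of_isOpen_of_nhds (fun N hN => hΓ.isOpen hN.1) fun p U hp hU => ?_, ?_⟩
  · by_cases h : ∃ B ∈ Γ, B ⊆ U ∧ IsLeast B p
    · obtain ⟨N, ⟨h1, h2, h3⟩, h4⟩ := (wellFounded_lt.onFun (f := r)).has_min _ h
      exact ⟨N, ⟨h1, ⟨p, h3.1⟩, Or.inl fun N' h5 h6 h7 => h4 N' ⟨h5, h6.trans h2, h7 p h3,
        fun y hy => h3.2 (h6 hy)⟩⟩, h3.1, h2⟩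
    have h1 : ∀ B : {B // B ∈ Γ ∧ p ∈ B ∧ B ⊆ U}, ∃ C : {B // B ∈ Γ ∧ p ∈ B ∧ B ⊆ U},
        C.1 ⊆ B.1 ∧ ∀ q, IsLeast B.1 q → q ∉ C.1 := by
      rintro ⟨B, h1, h2, h3⟩
      obtain ⟨q, hq⟩ := hmin h2
      obtain ⟨C, h4, h5, h6⟩ := hΓ.exists_subset_of_mem_open (a := p) (u := B \ {q})
        ⟨h2, fun h4 => h ⟨B, h1, h3, h4 ▸ hq⟩⟩ ((hΓ.isOpen h1).sdiff isClosed_singleton)
      exact ⟨⟨C, h4, h5, fun y hy => h3 (h6 hy).1⟩, fun y hy => (h6 hy).1,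
        fun q' h7 h8 => (h6 h8).2 (h7.unique hq)⟩
    choose sh h2 h3 using h1
    obtain ⟨B0, h4⟩ := hΓ.exists_subset_of_mem_open hp hU
    let L : ℕ → Set X := fun t => (sh^[t] ⟨B0, h4⟩).1
    have h5 : ∀ t, L t ∈ Γ ∧ p ∈ L t ∧ L t ⊆ U := fun t => (sh^[t] ⟨B0, h4⟩).2
    have h6 : Antitone L := antitone_nat_of_succ_le fun t => by
      simp only [L, Function.iterate_succ_apply']; exact h2 _
    have h7 : ∀ t q, IsLeast (L t) q → q ∉ L (t + 1) := fun t => by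
      simp only [L, Function.iterate_succ_apply']; exact h3 _
    choose q hq using fun t => hmin (h5 t).2.1
    have h8 : StrictMono q := strictMono_nat_of_lt_succ fun t =>
      ((hq t).2 (h6 t.le_succ (hq _).1)).lt_of_ne fun h => h7 t _ (hq t) (h ▸ (hq _).1)
    have h9 : ∀ a c, ∃ S, a ≤ c → L c ⊆ S ∧ Maximal (· ∈ {S | S ∈ Γ ∧ S ⊆ L a ∧ IsLeast S (q c)}) S := by
      intro a c
      by_cases hac : a ≤ c
      swap
      · exact ⟨∅, fun h => absurd h hac⟩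
      obtain ⟨S, hS⟩ := zorn_subset_nonempty {S | S ∈ Γ ∧ S ⊆ L a ∧ IsLeast S (q c)}
        (fun C h9 h10 ⟨S, hS⟩ => ⟨⋃₀ C, ⟨hc C (fun S hS => (h9 hS).1) h10 ⟨S, hS⟩,
          sUnion_subset fun S hS => (h9 hS).2.1, ⟨S, hS, (h9 hS).2.2.1⟩,
          fun y ⟨S, hS, hy⟩ => (h9 hS).2.2.2 hy⟩, fun S hS => subset_sUnion_of_mem hS⟩) (L c)
        ⟨(h5 c).1, h6 hac, hq c⟩
      exact ⟨S, fun _ => hS⟩
    choose S hS using h9
    obtain ⟨a, c, h9, h10⟩ : ∃ a c, a ≤ c ∧ S a c ⊆ L (a + n p) := by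
      by_contra h9
      push Not at h9
      have h10 : ∀ i, (n p - i) * n p ≤ n p * n p + i := fun i =>
        (Nat.mul_le_mul_right _ (Nat.sub_le _ _)).trans (Nat.le_add_right _ _)
      refine anti (hn p) (hyperfilter ℕ) (fun i _ => S ((n p - i) * n p) (n p * n p + i))
        (fun i _ => Eventually.of_forall fun _ => ⟨(hS _ _ (h10 i)).2.1.1,
          (hS _ _ (h10 i)).1 (h5 _).2.1⟩) fun i j hij hj => Eventually.of_forall fun _ =>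
          Eventually.of_forall fun _ => ⟨fun h => ?_, fun h => ?_⟩
      · exact (h8 (Nat.add_lt_add_left hij _)).not_ge ((hS _ _ (h10 j)).2.1.2.2.2
          (h (hS _ _ (h10 i)).2.1.2.2.1))
      · refine h9 _ _ (h10 j) (h.trans ((hS _ _ (h10 i)).2.1.2.1.trans (h6 ?_)))
        rw [← Nat.succ_mul]
        exact Nat.mul_le_mul_right _ (by omega)
    obtain ⟨h11, h12⟩ := hS a c h9
    refine ⟨S a c, ⟨h12.1.1, ⟨p, h11 (h5 c).2.1⟩, Or.inr ⟨p, h11 (h5 c).2.1, fun t => L (a + t),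
      fun t => (h5 _).1, fun s t h => h6 (Nat.add_le_add_left h a), fun t => h7 _, h10,
      fun S' h13 h14 h15 h16 => h12.2 ⟨h13, h14, h16 _ h12.1.2.2⟩ h15⟩⟩, h11 (h5 c).2.1,
      h12.1.2.1.trans (h5 a).2.2⟩
  rintro ⟨N, h1, h2⟩
  have h3 : StrictMono N := strictMono_nat_of_lt_succ h2
  obtain ⟨q, ⟨k, h4⟩, h5⟩ := wellFounded_lt.has_min (⋃ j, N j)ᶜᶜ (by
    rw [compl_compl]; exact (h1 0).2.1.mono (subset_iUnion N 0)) |>.imp fun q h =>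
      And.intro (mem_iUnion.1 (compl_compl (⋃ j, N j) ▸ h.1)) h.2
  have h6 : ∀ j ≥ k, IsLeast (N j) q := fun j hj => ⟨h3.monotone hj h4, fun y hy =>
    not_lt.1 (h5 y (by rw [compl_compl]; exact mem_iUnion.2 ⟨j, hy⟩))⟩
  have hu : ∀ i, ∀ᶠ j in hyperfilter ℕ, i < j := fun i =>
    (eventually_gt_atTop i).filter_mono Nat.hyperfilter_le_atTop
  rcases Ultrafilter.eventually_or.1 (Eventually.of_forall (f := hyperfilter ℕ)
    fun j => (h1 j).2.2) with h7 | h7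
  · obtain ⟨i, ⟨h8, -⟩, h9⟩ := (wellFounded_lt.onFun (f := fun i => r (N i))).has_min _
      ((hu k).and h7).exists
    obtain ⟨j, h10, h11⟩ := ((hu i).and h7).exists
    exact h11 (N i) (h1 i).1 (h3 h10).le (fun q' h => (h.unique (h6 j (h8.trans h10).le)) ▸
      (h6 i h8.le).1) ((not_lt.1 (h9 j ⟨h8.trans h10, h11⟩)).lt_of_ne fun h =>
        (h3 h10).ne (r.injective h))
  have h8 : ∀ j, ∃ (p : X) (B : ℕ → Set X), N j ∈ G → p ∈ N j ∧ (∀ t, B t ∈ Γ) ∧ Antitone B ∧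
      (∀ t q, IsLeast (B t) q → q ∉ B (t + 1)) ∧ N j ⊆ B (n p) ∧
      ∀ S ∈ Γ, S ⊆ B 0 → N j ⊆ S → (∀ q, IsLeast (N j) q → IsLeast S q) → S ⊆ N j := by
    intro j
    by_cases h : N j ∈ G
    · exact let ⟨p, h8, B, h9⟩ := h; ⟨p, B, fun _ => ⟨h8, h9⟩⟩
    · exact ⟨q, N, fun h8 => absurd h8 h⟩
  choose p B h8 using h8
  obtain ⟨i, h9, h10⟩ := (wellFounded_lt.onFun (f := fun i => n (p i))).has_min _ h7.exists
  have h11 : ∀ a ≤ n (p i), ∀ᶠ j in hyperfilter ℕ, N j ⊆ B j a := fun a ha => h7.mono fun j hj =>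
    (h8 j hj).2.2.2.2.1.trans ((h8 j hj).2.2.1 (ha.trans (not_lt.1 (h10 j hj))))
  have h12 : ∀ a ≤ n (p i), ∀ᶠ j in hyperfilter ℕ, B j a ∈ Γ ∧ p i ∈ B j a := by
    intro a ha
    filter_upwards [h7, h11 a ha, hu i] with j h12 h13 h14
    exact ⟨(h8 j h12).2.1 a, h13 ((h3 h14).le (h8 i h9).1)⟩
  have h13 : ∀ a, ∀ b ≤ n (p i), ∀ᶠ j in hyperfilter ℕ, ∀ᶠ j' in hyperfilter ℕ,
      ¬ B j' b ⊆ B j a := by
    intro a b hb
    filter_upwards [h7, hu k] with j h13 h14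
    filter_upwards [h11 b hb, hu j] with j' h15 h16 h17
    exact (h3 h16).not_ge ((h8 j h13).2.2.2.2.2 _ (h1 j').1 (h15.trans (h17.trans
      ((h8 j h13).2.2.1 a.zero_le))) (h3 h16).le fun q' h =>
        h.unique (h6 j h14.le) ▸ h6 j' (h14.trans h16).le)
  refine anti (hn (p i)) _ (fun a j => B j a) h12 fun a b hab hb => ?_
  have h14 := chain (hn (p i)) _ _ (h12 a (hab.le.trans hb)) (h13 a a (hab.le.trans hb))
  obtain ⟨q', ⟨l, h15, h16⟩, h17⟩ := wellFounded_lt.has_min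
    {q | ∃ l, (∀ᶠ j in hyperfilter ℕ, B l a ⊆ B j a) ∧ q ∈ B l a}
    (let ⟨l, hl⟩ := (h14.and (h12 a (hab.le.trans hb))).exists; ⟨_, l, hl.1, hl.2.2⟩)
  have h18 : ∀ᶠ j in hyperfilter ℕ, IsLeast (B j a) q' := by
    filter_upwards [h14, h15] with j h18 h19
    exact ⟨h19 h16, fun y hy => not_lt.1 (h17 y ⟨j, h18, hy⟩)⟩
  filter_upwards [h18, h13 a b hb] with j h19 h20
  filter_upwards [h18, h7, h20] with j' h21 h22 h23
  exact ⟨fun h => (h8 j' h22).2.2.2.1 a q' h21 ((h8 j' h22).2.2.1 hab (h h19.1)), h23⟩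

theorem result :
    ∀ (X : Type u) [TopologicalSpace X] [T1Space X],
      (∃ Γ : Set (Set X), IsTopologicalBasis Γ ∧ PointFiniteRank Γ) →
        ∃ Γ : Set (Set X), IsTopologicalBasis Γ ∧ Noetherian Γ ∧ SubinfiniteRank Γ ∧
          PointFiniteRank Γ := by
  rintro X _ _ ⟨Γ, h1, h2⟩
  obtain ⟨Γ, h1, h2, h3⟩ := closed_base h1 h2
  obtain ⟨Γ', h4, h5, h6⟩ := main h1 h2 h3
  refine ⟨Γ', h5, h6, fun Δ h7 h8 ⟨x, hx⟩ => ?_, fun x => (h2 x).imp fun n hn Δ h7 =>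
    hn Δ (h7.trans h4)⟩
  obtain ⟨n, hn⟩ := h2 x
  exact finite_of_encard_le_coe (hn Δ (h7.trans h4) hx h8)

end Pool.Agent.Results.MP_d968d9_gt.NoethBaseT1
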